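import Pool.Agent.Helper37.ETC.Defs

/-!
# ETC-G3: Hilbert 90 for locally constant cocycles of a compact group acting on a field

Proof: helper82.  `M` is the pointwise stabiliser of a finite subset of `K` on which `f = 1`;
independence of the maps `x ↦ σ • x` (`σ` in `G / M`) on `K^M` gives `θ` with
`b = ∑_{σ ∈ G / M} f σ * σ • θ ≠ 0`, and `τ • b = b / f τ`.
-/

set_option autoImplicit false

namespace Pool.Helper37.ETC

open Module

section Galois

variable {G K : Type*} [Group G] [TopologicalSpace G]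
  [IsTopologicalGroup G] [CompactSpace G] [T2Space G] [TotallyDisconnectedSpace G] [Field K]
  [MulSemiringAction G K]

/-- The pointwise stabiliser of a set. -/
private def g3stab (G : Type*) {K : Type*} [Group G] [Field K] [MulSemiringAction G K]
    (T : Set K) : Subgroup G where
  carrier := {σ | ∀ x ∈ T, σ • x = x}
  mul_mem' := by
    intro a b ha hb x hx
    rw [mul_smul, hb x hx, ha x hx]
  one_mem' := by
    intro x _
    exact one_smul G x
  inv_mem' := by
    intro a ha x hx
    rw [inv_smul_eq_iff, ha x hx]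

omit [IsTopologicalGroup G] [CompactSpace G] [T2Space G] [TotallyDisconnectedSpace G] in
private theorem g3stab_open (hc : ∀ x : K, IsOpen {σ : G | σ • x = x}) (T : Finset K) :
    IsOpen (g3stab G (T : Set K) : Set G) := by
  have : (g3stab G (T : Set K) : Set G) = ⋂ x ∈ T, {σ : G | σ • x = x} := by
    ext σ
    simp only [Set.mem_iInter]
    exact Iff.rfl
  rw [this]
  exact isOpen_biInter_finset fun x _ => hc x

omit [T2Space G] [TotallyDisconnectedSpace G] in
/-- the pointwise stabilisers of finite sets form a basis of neighbourhoods of one. -/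
private theorem g3_basis (hc : ∀ x : K, IsOpen {σ : G | σ • x = x})
    (hf : ∀ σ : G, (∀ x : K, σ • x = x) → σ = 1) (V : Set G) (hV : IsOpen V) (h1 : (1 : G) ∈ V) :
    ∃ T : Finset K, (g3stab G (T : Set K) : Set G) ⊆ V := by
  have hcl : ∀ x : K, IsOpen {σ : G | σ • x ≠ x} := by
    intro x
    have h2 : IsClosed (MulAction.stabilizer G x : Set G) :=
      Subgroup.isClosed_of_isOpen _ (hc x)
    have h3 : {σ : G | σ • x ≠ x} = (MulAction.stabilizer G x : Set G)ᶜ := by
      ext σ
      simp [MulAction.mem_stabilizer_iff]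
    rw [h3]
    exact h2.isOpen_compl
  have hcomp : IsCompact Vᶜ := hV.isClosed_compl.isCompact
  obtain ⟨T, hT⟩ := hcomp.elim_finite_subcover (fun x : K => {σ : G | σ • x ≠ x}) hcl (by
    intro σ hσ
    have h4 : σ ≠ 1 := by
      rintro rfl
      exact hσ h1
    have h5 : ∃ x : K, σ • x ≠ x := by
      by_contra h
      push Not at h
      exact h4 (hf σ h)
    obtain ⟨x, hx⟩ := h5
    exact Set.mem_iUnion.2 ⟨x, hx⟩)
  refine ⟨T, fun σ hσ => ?_⟩
  by_contra h
  have h6 := hT h
  simp only [Set.mem_iUnion] at h6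
  obtain ⟨x, hx, hne⟩ := h6
  exact hne (hσ x hx)

/-- G3 (Hilbert 90; uses G1) -/
theorem h90 (hc : ∀ x : K, IsOpen {σ : G | σ • x = x})
    (hf : ∀ σ : G, (∀ x : K, σ • x = x) → σ = 1) (f : G → K) (h0 : ∀ σ, f σ ≠ 0)
    (hlc : IsLocallyConstant f) (h : ∀ σ τ, f (σ * τ) = f σ * σ • f τ) :
    ∃ x : K, x ≠ 0 ∧ ∀ σ, f σ = σ • x / x := by
  classical
  have hf1 : f 1 = 1 := by
    have h1 := h 1 1
    rw [mul_one, one_smul] at h1
    have h2 : f 1 * 1 = f 1 * f 1 := by rw [mul_one]; exact h1
    exact (mul_left_cancel₀ (h0 1) h2).symm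
  obtain ⟨T, hT⟩ := g3_basis hc hf {σ | f σ = 1} (hlc.isOpen_fiber 1) hf1
  set M : Subgroup G := g3stab G (T : Set K) with hM
  have hMo : IsOpen (M : Set G) := g3stab_open hc T
  have hfM : ∀ m ∈ M, f m = 1 := fun m hm => hT hm
  have : Finite (G ⧸ M) := Subgroup.quotient_finite_of_isOpen M hMo
  let _ : Fintype (G ⧸ M) := Fintype.ofFinite _
  let L : Subfield K := FixedPoints.subfield M K
  have hL : ∀ x : K, x ∈ L ↔ ∀ m : M, m • x = x := fun x => Iff.rfl
  have hTL : ∀ x ∈ T, x ∈ L := fun x hx m => m.2 x hx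
  -- the maps attached to the cosets
  let e : G ⧸ M → (L →* K) := fun q =>
    { toFun := fun x => q.out • (x : K)
      map_one' := by simp
      map_mul' := fun x y => by simp [smul_mul'] }
  have he : Function.Injective e := by
    intro q q' hqq
    have h1 : ∀ x ∈ T, q.out • x = q'.out • x := fun x hx => by
      have := DFunLike.congr_fun hqq ⟨x, hTL x hx⟩
      exact this
    have h2 : (q.out)⁻¹ * q'.out ∈ M := by
      intro x hx
      rw [mul_smul, ← h1 x hx, inv_smul_smul]
    have h3 : (QuotientGroup.mk q.out : G ⧸ M) = QuotientGroup.mk q'.out :=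
      QuotientGroup.eq.2 h2
    rwa [QuotientGroup.out_eq', QuotientGroup.out_eq'] at h3
  have hli : LinearIndependent K (fun q : G ⧸ M => ((e q : L →* K) : L → K)) :=
    (linearIndependent_monoidHom L K).comp e he
  obtain ⟨θ, hθ⟩ : ∃ θ : L, ∑ q : G ⧸ M, f q.out * q.out • (θ : K) ≠ 0 := by
    by_contra hcon
    push Not at hcon
    rw [Fintype.linearIndependent_iff] at hli
    have h1 := hli (fun q => f q.out) (by
      funext θ
      rw [Finset.sum_apply]
      exact hcon θ)
    exact h0 _ (h1 (QuotientGroup.mk 1))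
  -- the function on the cosets
  let g : G → K := fun σ => f σ * σ • (θ : K)
  have hg : ∀ σ, ∀ m ∈ M, g (σ * m) = g σ := by
    intro σ m hm
    show f (σ * m) * (σ * m) • (θ : K) = f σ * σ • (θ : K)
    rw [h, hfM m hm, smul_one, mul_one, mul_smul]
    congr 2
    exact θ.2 ⟨m, hm⟩
  let g' : G ⧸ M → K := Quotient.lift g (by
    intro a b hab
    have h1 : a⁻¹ * b ∈ M := QuotientGroup.leftRel_apply.1 hab
    have h2 := hg a _ h1
    rw [mul_inv_cancel_left] at h2
    exact h2.symm)
  have hg' : ∀ σ : G, g' (QuotientGroup.mk σ) = g σ := fun σ => rfl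
  set b : K := ∑ q : G ⧸ M, g' q with hb
  have hb0 : b ≠ 0 := by
    have : b = ∑ q : G ⧸ M, f q.out * q.out • (θ : K) := by
      rw [hb]
      refine Finset.sum_congr rfl fun q _ => ?_
      conv_lhs => rw [← QuotientGroup.out_eq' q]
      exact hg' _
    rw [this]
    exact hθ
  have hτ : ∀ τ : G, f τ * τ • b = b := by
    intro τ
    rw [hb, Finset.smul_sum, Finset.mul_sum]
    rw [← Equiv.sum_comp (MulAction.toPerm τ) g']
    refine Finset.sum_congr rfl fun q _ => ?_
    obtain ⟨σ, rfl⟩ := QuotientGroup.mk_surjective q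
    rw [hg']
    have h1 : (MulAction.toPerm τ) (QuotientGroup.mk σ : G ⧸ M) = QuotientGroup.mk (τ * σ) := rfl
    rw [h1, hg']
    show f τ * τ • (f σ * σ • (θ : K)) = f (τ * σ) * (τ * σ) • (θ : K)
    rw [h, smul_mul', mul_smul]
    ring
  refine ⟨b⁻¹, inv_ne_zero hb0, fun τ => ?_⟩
  have h1 : τ • b ≠ 0 := by
    intro h2
    exact hb0 ((smul_eq_zero_iff_eq τ).1 h2)
  rw [smul_inv'', div_inv_eq_mul]
  field_simp
  exact hτ τ

end Galois

end Pool.Helper37.ETC
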