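import Pool.Agent.Helper39.ETC.G49
import Pool.Agent.Helper39.ETC.G1011
import Pool.Agent.Helper82.ETC.G3

/-!
# ETC-S3: classes killed on the kernel of a Kummer character are symbols

Proof: helper82.
-/

set_option autoImplicit false

namespace Pool.Helper37.ETC

open Module

section Galois

/-- Factor sets of a cyclic quotient: `C (s^i) (s^k) = A (i+k) / (A i * s^i • A k)` with
`A i = ∏_{j<i} C (s^j) s`. -/
private theorem s3_cyclic {G K : Type*} [Group G] [Field K] [MulSemiringAction G K]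
    (C : G → G → K) (h1 : ∀ σ, C σ 1 = 1)
    (hC : ∀ ρ σ τ, ρ • C σ τ * C ρ (σ * τ) = C (ρ * σ) τ * C ρ σ) (s : G) (i k : ℕ) :
    C (s ^ i) (s ^ k) * ((∏ j ∈ Finset.range i, C (s ^ j) s) *
      s ^ i • ∏ j ∈ Finset.range k, C (s ^ j) s) = ∏ j ∈ Finset.range (i + k), C (s ^ j) s := by
  induction k with
  | zero => simp [h1]
  | succ k ih =>
    rw [← add_assoc, Finset.prod_range_succ _ (i + k), ← ih, Finset.prod_range_succ _ k,
      smul_mul']
    have h2 := hC (s ^ i) (s ^ k) s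
    rw [← pow_succ, ← pow_add] at h2
    linear_combination ((∏ j ∈ Finset.range i, C (s ^ j) s) *
      s ^ i • ∏ j ∈ Finset.range k, C (s ^ j) s) * h2

/-- The periodicity of the partial products. -/
private theorem s3_period {K : Type*} [Field K] (a : ℕ → K) (p : ℕ)
    (ha : ∀ j, a (p + j) = a j) (m : ℕ) :
    ∏ j ∈ Finset.range m, a j =
      (∏ j ∈ Finset.range p, a j) ^ (m / p) * ∏ j ∈ Finset.range (m % p), a j := by
  have h1 : ∀ q r : ℕ, ∏ j ∈ Finset.range (p * q + r), a j =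
      (∏ j ∈ Finset.range p, a j) ^ q * ∏ j ∈ Finset.range r, a j := by
    intro q
    induction q with
    | zero => intro r; simp
    | succ q ih =>
      intro r
      have h2 : p * (q + 1) + r = p + (p * q + r) := by ring
      rw [h2, Finset.prod_range_add, pow_succ]
      have h3 : ∀ j, a (p + j) = a j := ha
      simp_rw [h3]
      rw [ih]
      ring
  conv_lhs => rw [← Nat.div_add_mod m p]
  exact h1 _ _

/-- A factor set trivial on the kernel of `χ` comes from the cyclic quotient. -/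
private theorem s3_core {p : ℕ} [Fact p.Prime] {G K : Type*} [Group G] [Field K]
    [MulSemiringAction G K] (χ : G → ZMod p) (hχ : ∀ σ τ, χ (σ * τ) = χ σ + χ τ) (s : G)
    (hs : χ s = 1) (C : G → G → K) (h0 : ∀ σ τ, C σ τ ≠ 0)
    (hC : ∀ ρ σ τ, ρ • C σ τ * C ρ (σ * τ) = C (ρ * σ) τ * C ρ σ)
    (hl : ∀ u, χ u = 0 → ∀ τ, C u τ = 1) (hr : ∀ σ u, χ u = 0 → C σ u = 1) :
    (∏ j ∈ Finset.range p, C (s ^ j) s) ∈ (Fx G : Set K) ∧
    ∀ σ τ, C σ τ * ((∏ j ∈ Finset.range (χ σ).val, C (s ^ j) s) *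
      σ • ∏ j ∈ Finset.range (χ τ).val, C (s ^ j) s) =
      (∏ j ∈ Finset.range p, C (s ^ j) s) ^ (((χ σ).val + (χ τ).val) / p) *
        ∏ j ∈ Finset.range (χ (σ * τ)).val, C (s ^ j) s := by
  have hp : 0 < p := (Fact.out : p.Prime).pos
  have hχ1 : χ 1 = 0 := by
    have := hχ 1 1
    rw [mul_one] at this
    simpa using this
  have hχinv : ∀ σ, χ σ⁻¹ = -χ σ := by
    intro σ
    have := hχ σ σ⁻¹
    rw [mul_inv_cancel, hχ1] at this
    exact (neg_eq_of_add_eq_zero_right this.symm).symm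
  have hχpow : ∀ j : ℕ, χ (s ^ j) = j := by
    intro j
    induction j with
    | zero => simp [hχ1]
    | succ j ih => rw [pow_succ, hχ, ih, hs]; push_cast; ring
  -- invariance
  have hr' : ∀ σ τ u, χ u = 0 → C σ (τ * u) = C σ τ := by
    intro σ τ u hu
    have := hC σ τ u
    rw [hr τ u hu, hr (σ * τ) u hu, smul_one, one_mul, one_mul] at this
    exact this
  have hconj : ∀ τ u, χ u = 0 → χ (τ⁻¹ * u * τ) = 0 := by
    intro τ u hu
    rw [hχ, hχ, hχinv, hu]
    ring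
  have hr'' : ∀ σ τ u, χ u = 0 → C σ (u * τ) = C σ τ := by
    intro σ τ u hu
    have h1 : u * τ = τ * (τ⁻¹ * u * τ) := by group
    rw [h1, hr' σ τ _ (hconj τ u hu)]
  have hl' : ∀ σ τ u, χ u = 0 → C (σ * u) τ = C σ τ := by
    intro σ τ u hu
    have := hC σ u τ
    rw [hl u hu τ, hr σ u hu, smul_one, one_mul, mul_one, hr'' σ τ u hu] at this
    exact this.symm
  have hl'' : ∀ σ τ u, χ u = 0 → C (u * σ) τ = C σ τ := by
    intro σ τ u hu
    have h1 : u * σ = σ * (σ⁻¹ * u * σ) := by group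
    rw [h1, hl' σ τ _ (hconj σ u hu)]
  have hfix : ∀ σ τ u, χ u = 0 → u • C σ τ = C σ τ := by
    intro σ τ u hu
    have := hC u σ τ
    rw [hl u hu (σ * τ), hl u hu σ, mul_one, mul_one, hl'' σ τ u hu] at this
    exact this
  -- dependence on `χ` only
  have hdep : ∀ σ σ' τ τ', χ σ = χ σ' → χ τ = χ τ' → C σ τ = C σ' τ' := by
    intro σ σ' τ τ' h1 h2
    have h3 : χ (σ'⁻¹ * σ) = 0 := by rw [hχ, hχinv, h1]; ring
    have h4 : χ (τ'⁻¹ * τ) = 0 := by rw [hχ, hχinv, h2]; ring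
    calc C σ τ = C (σ' * (σ'⁻¹ * σ)) (τ' * (τ'⁻¹ * τ)) := by
          rw [mul_inv_cancel_left, mul_inv_cancel_left]
      _ = C σ' τ' := by rw [hl' _ _ _ h3, hr' _ _ _ h4]
  have hper : ∀ j, C (s ^ (p + j)) s = C (s ^ j) s := by
    intro j
    apply hdep _ _ _ _ _ rfl
    rw [hχpow, hχpow]
    push_cast
    simp
  have hAfix : ∀ i u, χ u = 0 → u • ∏ j ∈ Finset.range i, C (s ^ j) s =
      ∏ j ∈ Finset.range i, C (s ^ j) s := by
    intro i u hu
    rw [Finset.smul_prod']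
    exact Finset.prod_congr rfl fun j _ => hfix _ _ _ hu
  have hdecomp : ∀ σ : G, χ ((s ^ (χ σ).val)⁻¹ * σ) = 0 := by
    intro σ
    rw [hχ, hχinv, hχpow, ZMod.natCast_zmod_val]
    ring
  have hAσ : ∀ (σ : G) (i : ℕ), σ • ∏ j ∈ Finset.range i, C (s ^ j) s =
      s ^ (χ σ).val • ∏ j ∈ Finset.range i, C (s ^ j) s := by
    intro σ i
    conv_lhs => rw [← mul_inv_cancel_left (s ^ (χ σ).val) σ, mul_smul, hAfix _ _ (hdecomp σ)]
  -- `b` is fixed by `s`
  have hsb : s • ∏ j ∈ Finset.range p, C (s ^ j) s = ∏ j ∈ Finset.range p, C (s ^ j) s := by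
    have h1 : ∀ j, s • C (s ^ j) s * C s (s ^ (j + 1)) = C (s ^ (j + 1)) s * C s (s ^ j) := by
      intro j
      have := hC s (s ^ j) s
      rw [← pow_succ, ← pow_succ'] at this
      exact this
    have h2 : (s • ∏ j ∈ Finset.range p, C (s ^ j) s) *
        ∏ j ∈ Finset.range p, C s (s ^ (j + 1)) =
        (∏ j ∈ Finset.range p, C (s ^ (j + 1)) s) * ∏ j ∈ Finset.range p, C s (s ^ j) := by
      rw [Finset.smul_prod', ← Finset.prod_mul_distrib, ← Finset.prod_mul_distrib]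
      exact Finset.prod_congr rfl fun j _ => h1 j
    have hχp : χ (s ^ p) = 0 := by rw [hχpow]; simp
    have h3 : ∏ j ∈ Finset.range p, C s (s ^ (j + 1)) = ∏ j ∈ Finset.range p, C s (s ^ j) := by
      have h4 := Finset.prod_range_succ (fun j => C s (s ^ j)) p
      rw [Finset.prod_range_succ'] at h4
      simp only [hr s (s ^ p) hχp, hr s (s ^ 0) (by rw [pow_zero]; exact hχ1), mul_one] at h4
      exact h4
    have h5 : ∏ j ∈ Finset.range p, C (s ^ (j + 1)) s = ∏ j ∈ Finset.range p, C (s ^ j) s := by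
      have h4 := Finset.prod_range_succ (fun j => C (s ^ j) s) p
      rw [Finset.prod_range_succ'] at h4
      simp only [hl (s ^ p) hχp s, hl (s ^ 0) (by rw [pow_zero]; exact hχ1) s, mul_one] at h4
      exact h4
    rw [h3, h5] at h2
    exact mul_right_cancel₀ (Finset.prod_ne_zero_iff.2 fun j _ => h0 _ _) h2
  constructor
  · intro σ
    rw [hAσ]
    generalize (χ σ).val = n
    induction n with
    | zero => rw [pow_zero, one_smul]
    | succ n ih => rw [pow_succ, mul_smul, hsb, ih]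
  · intro σ τ
    have h1 := s3_cyclic C (fun σ => hr σ 1 hχ1) hC s (χ σ).val (χ τ).val
    rw [hAσ, hdep σ (s ^ (χ σ).val) τ (s ^ (χ τ).val)
      (by rw [hχpow, ZMod.natCast_zmod_val]) (by rw [hχpow, ZMod.natCast_zmod_val]), h1,
      s3_period (fun j => C (s ^ j) s) p hper, hχ, ZMod.val_add]

/-- Powers of `ζ` with exponents in `ZMod p`. -/
private theorem s3_pow_add {p : ℕ} [Fact p.Prime] {K : Type*} [Field K] {ζ : K} (h : ζ ^ p = 1)
    (a b : ZMod p) : ζ ^ (a + b).val = ζ ^ a.val * ζ ^ b.val := by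
  rw [ZMod.val_add, ← pow_add, ← pow_eq_pow_mod _ h]

variable {p : ℕ} [Fact p.Prime] {G K : Type*} [Group G] [TopologicalSpace G]
  [IsTopologicalGroup G] [CompactSpace G] [T2Space G] [TotallyDisconnectedSpace G] [Field K]
  [MulSemiringAction G K] {ζ : K}

/-- S3 (uses G3, G11): classes killed on `ker χ_a` are `χ_a ∪ χ_b`. -/
theorem sym_of_ker (Gd : Good p G K ζ) {a : K} (ha : a ∈ (Fx G : Set K)) (ha0 : a ≠ 0)
    {χ : G → ZMod p} (hχ : IsKum ζ a χ) {c : G → G → ZMod p} (hc : IsCoc p c)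
    (h : ∃ f : G → ZMod p, IsLocallyConstant f ∧
      ∀ σ τ, χ σ = 0 → χ τ = 0 → c σ τ = f σ + f τ - f (σ * τ)) :
    ∃ b ∈ (Fx G : Set K), b ≠ 0 ∧ ∃ ψ : G → ZMod p, IsKum ζ b ψ ∧
      IsCob p (fun σ τ => c σ τ - χ σ * ψ τ) := by
  classical
  obtain ⟨χ', hχ'c, hχ'⟩ := kum_exists Gd ha ha0
  have hχeq : χ = χ' := kum_unique Gd ha0 hχ hχ'
  have hχc : IsCh p χ := hχeq ▸ hχ'c
  obtain ⟨f, hflc, hf⟩ := h
  by_cases hzero : ∀ σ, χ σ = 0
  · have h1 : (1 : K) ∈ (Fx G : Set K) := fun σ => smul_one σ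
    obtain ⟨ψ, hψc, hψ⟩ := kum_exists Gd h1 one_ne_zero
    refine ⟨1, h1, one_ne_zero, ψ, hψ, f, hflc, fun σ τ => ?_⟩
    simp only [hzero, zero_mul, sub_zero]
    exact hf σ τ (hzero σ) (hzero τ)
  push Not at hzero
  obtain ⟨s1, hs1⟩ := hzero
  have hp : p.Prime := Fact.out
  have hζp : ζ ^ p = 1 := Gd.prim.pow_eq_one
  have hζ0 : ζ ≠ 0 := Gd.prim.ne_zero hp.ne_zero
  have hχ1 : χ 1 = 0 := by
    have := hχc.1 1 1
    rw [mul_one] at this
    simpa using this
  have hχpow' : ∀ (σ : G) (j : ℕ), χ (σ ^ j) = j * χ σ := by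
    intro σ j
    induction j with
    | zero => simp [hχ1]
    | succ j ih => rw [pow_succ, hχc.1, ih]; push_cast; ring
  have hχinv : ∀ σ, χ σ⁻¹ = -χ σ := by
    intro σ
    have := hχc.1 σ σ⁻¹
    rw [mul_inv_cancel, hχ1] at this
    exact (neg_eq_of_add_eq_zero_right this.symm).symm
  obtain ⟨s, hs⟩ : ∃ s : G, χ s = 1 := by
    refine ⟨s1 ^ ((χ s1)⁻¹).val, ?_⟩
    rw [hχpow', ZMod.natCast_zmod_val, inv_mul_cancel₀ hs1]
  have hχpow : ∀ j : ℕ, χ (s ^ j) = j := by
    intro j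
    rw [hχpow', hs, mul_one]
  -- representatives
  set t : G → ℕ := fun σ => (χ σ).val with ht
  set w : G → G := fun σ => (s ^ t σ)⁻¹ * σ with hw
  have htlc : IsLocallyConstant t := hχc.2.comp ZMod.val
  have hwc : Continuous w := by
    have h1 : Continuous fun σ => s ^ t σ := (htlc.comp fun n => s ^ n).continuous
    exact h1.inv.mul continuous_id
  have hsw : ∀ σ, s ^ t σ * w σ = σ := fun σ => mul_inv_cancel_left _ _
  have hχw : ∀ σ, χ (w σ) = 0 := by
    intro σ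
    simp only [hw]
    rw [hχc.1, hχinv, hχpow, ht, ZMod.natCast_zmod_val]
    ring
  have htu : ∀ σ u, χ u = 0 → t (σ * u) = t σ := by
    intro σ u hu
    simp only [ht]
    rw [hχc.1, hu, add_zero]
  have htu' : ∀ σ u, χ u = 0 → t (u * σ) = t σ := by
    intro σ u hu
    simp only [ht]
    rw [hχc.1, hu, zero_add]
  have ht0 : ∀ u, χ u = 0 → t u = 0 := by
    intro u hu
    simp only [ht]
    rw [hu, ZMod.val_zero]
  have hwu : ∀ σ u, χ u = 0 → w (σ * u) = w σ * u := by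
    intro σ u hu
    simp only [hw]
    rw [htu σ u hu, mul_assoc]
  have hwu0 : ∀ u, χ u = 0 → w u = u := by
    intro u hu
    simp only [hw]
    rw [ht0 u hu, pow_zero, inv_one, one_mul]
  have hχmul : ∀ u v, χ u = 0 → χ v = 0 → χ (u * v) = 0 := by
    intro u v hu hv
    rw [hχc.1, hu, hv, add_zero]
  -- first modification
  have hc1 : ∀ v, c 1 v = c 1 1 := by
    intro v
    have := hc.1 1 1 v
    rw [one_mul, one_mul] at this
    linear_combination this
  set φ : G → ZMod p := fun σ => f (w σ) - c (s ^ t σ) (w σ) + c 1 1 with hφ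
  have hφlc : IsLocallyConstant φ := by
    have h1 : IsLocallyConstant fun σ => f (w σ) := hflc.comp_continuous hwc
    have h2 : Continuous fun σ => (s ^ t σ, w σ) :=
      (htlc.comp fun n => s ^ n).continuous.prodMk hwc
    have h3 : IsLocallyConstant fun σ => c (s ^ t σ) (w σ) := hc.2.comp_continuous h2
    exact (h1.sub h3).add (IsLocallyConstant.const _)
  have hφu : ∀ u, χ u = 0 → φ u = f u := by
    intro u hu
    simp only [hφ]
    rw [hwu0 u hu, ht0 u hu, pow_zero, hc1]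
    ring
  have hkey : ∀ σ u, χ u = 0 → c σ u = φ σ + φ u - φ (σ * u) := by
    intro σ u hu
    rw [hφu u hu]
    simp only [hφ]
    rw [hwu σ u hu, htu σ u hu]
    have h1 := hc.1 (s ^ t σ) (w σ) u
    rw [hsw] at h1
    have h2 := hf (w σ) u (hχw σ) hu
    linear_combination h2 - h1
  set c2 : G → G → ZMod p := fun σ τ => c σ τ - (φ σ + φ τ - φ (σ * τ)) with hc2
  have hcoc : ∀ ρ σ τ, c2 σ τ + c2 ρ (σ * τ) = c2 (ρ * σ) τ + c2 ρ σ := by
    intro ρ σ τ
    simp only [hc2]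
    have := hc.1 ρ σ τ
    rw [mul_assoc]
    linear_combination this
  have hc2r : ∀ σ u, χ u = 0 → c2 σ u = 0 := by
    intro σ u hu
    simp only [hc2]
    rw [hkey σ u hu, sub_self]
  have hc2lc : ∀ τ, IsLocallyConstant fun σ => c2 σ τ := by
    intro τ
    simp only [hc2]
    have h1 : IsLocallyConstant fun σ => c σ τ :=
      hc.2.comp_continuous (continuous_id.prodMk continuous_const)
    have h2 : IsLocallyConstant fun σ => φ (σ * τ) :=
      hφlc.comp_continuous (continuous_id.mul continuous_const)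
    exact h1.sub ((hφlc.add (IsLocallyConstant.const _)).sub h2)
  have hc2mul : ∀ σ τ u, χ u = 0 → c2 σ (τ * u) = c2 σ τ := by
    intro σ τ u hu
    have := hcoc σ τ u
    rw [hc2r τ u hu, hc2r (σ * τ) u hu] at this
    linear_combination this
  have hc2hom : ∀ u v τ, χ u = 0 → χ v = 0 → c2 (u * v) τ = c2 u τ + c2 v τ := by
    intro u v τ hu hv
    have h1 := hcoc u v τ
    rw [hc2r u v hv] at h1
    have h2 : v * τ = τ * (τ⁻¹ * v * τ) := by group
    have h3 : χ (τ⁻¹ * v * τ) = 0 := by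
      rw [hχc.1, hχc.1, hχinv, hv]
      ring
    rw [h2, hc2mul _ _ _ h3] at h1
    linear_combination -h1
  -- the kernel of `χ`
  let U : Subgroup G :=
    { carrier := {σ | χ σ = 0}
      mul_mem' := fun {a b} ha hb => hχmul a b ha hb
      one_mem' := hχ1
      inv_mem' := fun {a} ha => by
        show χ a⁻¹ = 0
        rw [hχinv, show χ a = 0 from ha, neg_zero] }
  have hUcl : IsClosed (U : Set G) := hχc.2.isClosed_fiber 0
  have : CompactSpace U := isCompact_iff_compactSpace.1 hUcl.isCompact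
  have hζsmul : ∀ (σ : G) (n : ℕ), σ • ζ ^ n = ζ ^ n := by
    intro σ n
    rw [smul_pow', Gd.fix]
  have hexh : ∀ i : ℕ, ∃ x : K, x ≠ 0 ∧ (i = 0 → x = 1) ∧
      ∀ u, χ u = 0 → u • x = ζ ^ (c2 u (s ^ i)).val * x := by
    intro i
    by_cases hi : i = 0
    · refine ⟨1, one_ne_zero, fun _ => rfl, fun u _ => ?_⟩
      rw [hi, pow_zero, hc2r u 1 hχ1, ZMod.val_zero, pow_zero, smul_one, mul_one]
    · obtain ⟨x, hx0, hx⟩ := h90 (G := U) (K := K)
        (fun x => (Gd.cont x).preimage continuous_subtype_val)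
        (fun σ hσ => Subtype.ext (Gd.faith σ fun x => hσ x))
        (fun u : U => ζ ^ (c2 u (s ^ i)).val) (fun u => pow_ne_zero _ hζ0)
        (((hc2lc (s ^ i)).comp fun z : ZMod p => ζ ^ z.val).comp_continuous
          continuous_subtype_val) (by
          intro u v
          have h1 : u • (ζ ^ (c2 (v : G) (s ^ i)).val) = ζ ^ (c2 (v : G) (s ^ i)).val :=
            hζsmul (u : G) _
          rw [h1, ← s3_pow_add hζp]
          congr 2
          exact hc2hom u v _ u.2 v.2)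
      refine ⟨x, hx0, fun h => absurd h hi, fun u hu => ?_⟩
      have := hx ⟨u, hu⟩
      simp only at this
      rw [this, div_mul_cancel₀ _ hx0]
      rfl
  choose hh hh0 hh1 hhu using hexh
  set H : G → K := fun σ => hh (t σ) with hH
  have hH0 : ∀ σ, H σ ≠ 0 := fun σ => hh0 _
  have hσH : ∀ σ τ : G, σ • H τ ≠ 0 := fun σ τ h1 => hH0 τ ((smul_eq_zero_iff_eq σ).1 h1)
  set C : G → G → K := fun σ τ => ζ ^ (c2 σ τ).val * H (σ * τ) / (H σ * σ • H τ) with hC
  have hC0 : ∀ σ τ, C σ τ ≠ 0 := by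
    intro σ τ
    exact div_ne_zero (mul_ne_zero (pow_ne_zero _ hζ0) (hH0 _)) (mul_ne_zero (hH0 _) (hσH _ _))
  have hCcoc : ∀ ρ σ τ, ρ • C σ τ * C ρ (σ * τ) = C (ρ * σ) τ * C ρ σ := by
    intro ρ σ τ
    simp only [hC]
    rw [div_eq_mul_inv, smul_mul', smul_mul', smul_inv'', smul_mul', hζsmul, ← mul_smul,
      ← mul_assoc ρ σ τ]
    have h1 := hH0 ρ
    have h2 := hσH ρ (σ * τ)
    have h3 := hσH ρ σ
    have h4 := hσH (ρ * σ) τ
    have h5 := hH0 (ρ * σ)
    have h6 : ζ ^ (c2 σ τ).val * ζ ^ (c2 ρ (σ * τ)).val =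
        ζ ^ (c2 (ρ * σ) τ).val * ζ ^ (c2 ρ σ).val := by
      rw [← s3_pow_add hζp, ← s3_pow_add hζp, hcoc]
    field_simp
    linear_combination H (ρ * σ * τ) * h6
  have hCl : ∀ u, χ u = 0 → ∀ τ, C u τ = 1 := by
    intro u hu τ
    have h1 : H u = 1 := by
      simp only [hH]
      rw [ht0 u hu]
      exact hh1 0 rfl
    have h2 : H (u * τ) = H τ := by
      simp only [hH]
      rw [htu' τ u hu]
    have h3 : u • H τ = ζ ^ (c2 u τ).val * H τ := by
      have h4 : c2 u τ = c2 u (s ^ t τ) := by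
        conv_lhs => rw [← hsw τ, hc2mul u _ _ (hχw τ)]
      rw [h4]
      exact hhu _ u hu
    simp only [hC]
    rw [h1, h2, h3, one_mul]
    exact div_self (mul_ne_zero (pow_ne_zero _ hζ0) (hH0 τ))
  have hCr : ∀ σ u, χ u = 0 → C σ u = 1 := by
    intro σ u hu
    have h1 : H u = 1 := by
      simp only [hH]
      rw [ht0 u hu]
      exact hh1 0 rfl
    have h2 : H (σ * u) = H σ := by
      simp only [hH]
      rw [htu σ u hu]
    simp only [hC]
    rw [hc2r σ u hu, h1, h2, ZMod.val_zero, pow_zero, one_mul, smul_one, mul_one]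
    exact div_self (hH0 σ)
  obtain ⟨hbF, hfac⟩ := s3_core χ hχc.1 s hs C hC0 hCcoc hCl hCr
  set b : K := ∏ j ∈ Finset.range p, C (s ^ j) s with hb
  have hb0 : b ≠ 0 := Finset.prod_ne_zero_iff.2 fun j _ => hC0 _ _
  obtain ⟨ψ, hψc, hψ⟩ := kum_exists Gd hbF hb0
  obtain ⟨β, hβ⟩ := Gd.root b
  have hβ0 : β ≠ 0 := by
    rintro rfl
    rw [zero_pow hp.ne_zero] at hβ
    exact hb0 hβ.symm
  set AA : ℕ → K := fun n => ∏ j ∈ Finset.range n, C (s ^ j) s with hAA
  have hAA0 : ∀ n, AA n ≠ 0 := fun n => Finset.prod_ne_zero_iff.2 fun j _ => hC0 _ _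
  have hcob := cob_of_cobK Gd (c := fun σ τ => c2 σ τ + ψ σ * χ τ)
    (fun σ => hh (t σ) * β ^ t σ / AA (t σ))
    (fun σ => div_ne_zero (mul_ne_zero (hh0 _) (pow_ne_zero _ hβ0)) (hAA0 _))
    (htlc.comp fun n => hh n * β ^ n / AA n) (by
      intro σ τ
      have h1 := hfac σ τ
      have h2 : C σ τ * (H σ * σ • H τ) = ζ ^ (c2 σ τ).val * H (σ * τ) := by
        simp only [hC]
        rw [div_mul_cancel₀]
        exact mul_ne_zero (hH0 _) (hσH _ _)
      have hσβ : σ • β = ζ ^ (ψ σ).val * β := hψ β hβ σ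
      have hval : t σ + t τ = p * ((t σ + t τ) / p) + t (σ * τ) := by
        have h3 : t (σ * τ) = (t σ + t τ) % p := by
          simp only [ht]
          rw [hχc.1, ZMod.val_add]
        rw [h3]
        exact (Nat.div_add_mod _ _).symm
      have h4 : (ζ ^ (ψ σ).val) ^ t τ = ζ ^ (ψ σ * χ τ).val := by
        rw [← pow_mul, ZMod.val_mul, ← pow_eq_pow_mod _ hζp]
      have h3 : β ^ t σ * σ • β ^ t τ =
          b ^ ((t σ + t τ) / p) * β ^ t (σ * τ) * ζ ^ (ψ σ * χ τ).val := by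
        rw [smul_pow', hσβ, mul_pow, h4, ← hβ, ← pow_mul, ← pow_add, ← hval, pow_add]
        ring
      have h5 : σ • (hh (t τ) * β ^ t τ / AA (t τ)) =
          σ • H τ * σ • β ^ t τ / σ • AA (t τ) := by
        rw [div_eq_mul_inv, smul_mul', smul_mul', smul_inv'', ← div_eq_mul_inv]
      rw [s3_pow_add hζp, h5]
      have h6 : σ • AA (t τ) ≠ 0 := fun h7 => hAA0 _ ((smul_eq_zero_iff_eq σ).1 h7)
      have h7 := hAA0 (t σ)
      have h8 := hAA0 (t (σ * τ))
      have h9 := hH0 σ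
      have h10 := hσH σ τ
      have h1' : C σ τ * (AA (t σ) * σ • AA (t τ)) = b ^ ((t σ + t τ) / p) * AA (t (σ * τ)) := h1
      show ζ ^ (c2 σ τ).val * ζ ^ (ψ σ * χ τ).val * (H (σ * τ) * β ^ t (σ * τ) / AA (t (σ * τ))) =
        H σ * β ^ t σ / AA (t σ) * (σ • H τ * σ • β ^ t τ / σ • AA (t τ))
      have h11 : ζ ^ (c2 σ τ).val * H (σ * τ) * (AA (t σ) * σ • AA (t τ)) =
          H σ * σ • H τ * (b ^ ((t σ + t τ) / p) * AA (t (σ * τ))) := by
        rw [← h2, ← h1']
        ring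
      rw [mul_div_assoc', div_mul_div_comm, div_eq_div_iff h8 (mul_ne_zero h7 h6)]
      linear_combination ζ ^ (ψ σ * χ τ).val * β ^ t (σ * τ) * h11 -
        H σ * σ • H τ * AA (t (σ * τ)) * h3)
  obtain ⟨f1, hf1lc, hf1⟩ := hcob
  refine ⟨b, hbF, hb0, ψ, hψ, fun σ => f1 σ + φ σ + χ σ * ψ σ,
    (hf1lc.add hφlc).add (hχc.2.mul hψc.2), fun σ τ => ?_⟩
  have h1 := hf1 σ τ
  have h2 : c σ τ = c2 σ τ + (φ σ + φ τ - φ (σ * τ)) := by simp only [hc2]; ring
  simp only at h1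
  show c σ τ - χ σ * ψ τ = (f1 σ + φ σ + χ σ * ψ σ) + (f1 τ + φ τ + χ τ * ψ τ) -
    (f1 (σ * τ) + φ (σ * τ) + χ (σ * τ) * ψ (σ * τ))
  rw [h2, hχc.1, hψc.1]
  linear_combination h1

end Galois

end Pool.Helper37.ETC
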